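import Pool.Agent.Lead.CK1

namespace Pool.Agent.Results.MP_1f55c7_lc.Q1

open Pool.Agent.Lead.CK Pool.Agent.Lead.CK.F

/-- `□(j ∨ c) → ((□(j → b₁ ∨ b₂) → ¬□¬b₁ ∨ ¬□¬b₂) → □c) → □c`. -/
def star : F :=
  imp (box (or (var 0) (var 1))) (imp (imp (imp (box (imp (var 0) (or (var 2) (var 3))))
    (or (box (var 2).neg).neg (box (var 3).neg).neg)) (box (var 1))) (box (var 1)))

lemma star_L2 : L2 star := by
  have hK := inst2 (A := {Kdia, Ndia, wCD, Cdia}) (x := Kdia) (by simp) (var 0) (or (var 2) (var 3))
  have hC := inst2 (A := {Kdia, Ndia, wCD, Cdia}) (x := Cdia) (by simp) (var 2) (var 3)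
  simp only [Kdia, Cdia, F.subst, if_true, one_ne_zero, if_false] at hK hC
  have hd := fun b => dia_le (A := {Kdia, Ndia, wCD, Cdia}) (by simp) (by simp) b
  have h1 := Thm.mp _ _ (Thm.mp _ _ (Thm.orE _ _ _) (tr (hd (var 2))
    (.orL _ (box (var 3).neg).neg))) (tr (hd (var 3)) (.orR _ _))
  have h2 := sw (tr hK (post (tr hC h1)))
  exact tr (.ax wCD (by simp)) (pre (pre h2))

/-- The order on the seven worlds `x, x₁, x₂, x₃, y₀, y₁, y₂`. -/
def le (u v : Fin 7) : Bool :=
  u = v || (u = 0 && v.1 ≤ 3) || (u = 1 && (v = 2 || v = 3)) || (u = 4 && 4 ≤ v.1)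

def R (u v : Fin 7) : Bool :=
  (u = 0 && 4 ≤ v.1) || (u = 1 && 5 ≤ v.1) || (u = 2 && v = 6) || (u = 3 && v = 5)

def up (U : Fin 7 → Bool) : Prop := ∀ u v, le u v → U u → U v

def imp' (U V : Fin 7 → Bool) (u : Fin 7) : Bool := decide (∀ v, le u v → U v → V v)
def box' (U : Fin 7 → Bool) (u : Fin 7) : Bool := decide (∀ v, R u v → U v)
def neg' (U : Fin 7 → Bool) : Fin 7 → Bool := imp' U fun _ => false

def ev (V : ℕ → Fin 7 → Bool) : F → Fin 7 → Bool
  | .var n => V n
  | .bot => fun _ => false
  | .and a b => fun u => ev V a u && ev V b u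
  | .or a b => fun u => ev V a u || ev V b u
  | .imp a b => imp' (ev V a) (ev V b)
  | .box a => box' (ev V a)
  | .dia a => neg' (box' (neg' (ev V a)))

lemma le_rf : ∀ u, le u u := by decide
lemma le_tr : ∀ u v w, le u v → le v w → le u w := by decide
lemma le_R : ∀ u v w, le u v → R v w → R u w := by decide
lemma R_le : ∀ u v w, R u v → le v w → R u w := by decide

lemma up_imp (U V) : up (imp' U V) := by
  intro u v h
  simp only [imp', decide_eq_true_eq]
  exact fun H w hw => H w (le_tr _ _ _ h hw)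

lemma up_ev {V} (hV : ∀ n, up (V n)) (a : F) : up (ev V a) := by
  induction a with
  | var n => exact hV n
  | bot => intro u v _ h; exact h
  | and a b iha ihb =>
    intro u v h
    simp only [ev, Bool.and_eq_true]
    exact fun H => ⟨iha u v h H.1, ihb u v h H.2⟩
  | or a b iha ihb =>
    intro u v h
    simp only [ev, Bool.or_eq_true]
    exact fun H => H.imp (iha u v h) (ihb u v h)
  | imp a b _ _ => exact up_imp _ _
  | box a _ =>
    intro u v h
    simp only [ev, box', decide_eq_true_eq]
    exact fun H w hw => H w (le_R _ _ _ h hw)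
  | dia a _ => exact up_imp _ _

lemma ev_subst (V) (s) (a : F) : ev V (a.subst s) = ev (fun n => ev V (s n)) a := by
  induction a <;> simp_all [ev, F.subst]

lemma sound {a} (h : L1 a) : ∀ V, (∀ n, up (V n)) → ∀ u, ev V a u := by
  induction h with
  | k a b =>
    intro V hV u
    simp only [ev, imp', decide_eq_true_eq]
    exact fun v _ h w hw _ => up_ev hV a v w hw h
  | s a b c =>
    intro V hV u
    simp only [ev, imp', decide_eq_true_eq]
    exact fun v _ h w hw h' x hx h'' => h x (le_tr _ _ _ hw hx) h'' x (le_rf _) (h' x hx h'')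
  | andI a b =>
    intro V hV u
    simp only [ev, imp', decide_eq_true_eq, Bool.and_eq_true]
    exact fun v _ h w hw h' => ⟨up_ev hV a v w hw h, h'⟩
  | andL a b => intro V hV u; simp only [ev, imp', decide_eq_true_eq, Bool.and_eq_true]; tauto
  | andR a b => intro V hV u; simp only [ev, imp', decide_eq_true_eq, Bool.and_eq_true]; tauto
  | orL a b => intro V hV u; simp only [ev, imp', decide_eq_true_eq, Bool.or_eq_true]; tauto
  | orR a b => intro V hV u; simp only [ev, imp', decide_eq_true_eq, Bool.or_eq_true]; tauto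
  | orE a b c =>
    intro V hV u
    simp only [ev, imp', decide_eq_true_eq, Bool.or_eq_true]
    exact fun v _ h w hw h' x hx h'' => h''.elim (h x (le_tr _ _ _ hw hx)) (h' x hx)
  | efq a => intro V hV u; simp [ev, imp']
  | kbox a b =>
    intro V hV u
    simp only [ev, imp', box', decide_eq_true_eq]
    exact fun v _ h w hw h' x hx => h x (le_R _ _ _ hw hx) x (le_rf _) (h' x hx)
  | ax a ha =>
    intro V hV u
    rcases ha with rfl | rfl | rfl
    · simp only [Kdia, ev, imp', box', neg', decide_eq_true_eq, Bool.false_eq_true]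
      exact fun v _ h w hw h' x hx h'' => h' x hx fun y hy z hz h0 =>
        h'' y hy z hz (h y (le_R _ _ _ (le_tr _ _ _ hw hx) hy) z hz h0)
    · simp only [Ndia, ev, imp', box', neg', decide_eq_true_eq, Bool.false_eq_true]
      exact fun v _ h => h v (le_rf _) fun _ _ _ _ h => h
    · have h0 := hV 0
      have h1 := hV 1
      simp only [wCD, ev, imp', box', neg', decide_eq_true_eq, Bool.false_eq_true,
        Bool.or_eq_true]
      intro v _ h w hw h' y hy
      by_contra hc
      have hy0 : V 0 y := (h y (le_R _ _ _ hw hy)).resolve_right hc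
      have key : ∀ w y, R w y → ∃ x, le w x ∧ R x y ∧ ∀ z, le x z → ∃ t, R z t ∧ le y t := by
        decide
      obtain ⟨x, h2, h3, h4⟩ := key w y hy
      refine hc (h' x h2 (fun z hz H => ?_) y h3)
      obtain ⟨t, h5, h6⟩ := h4 z hz
      exact H t h5 t (le_rf _) (h0 _ _ h6 hy0)
  | mp a b _ _ ih1 ih2 =>
    intro V hV u
    have := ih1 V hV u
    simp only [ev, imp', decide_eq_true_eq] at this
    exact this u (le_rf _) (ih2 V hV u)
  | nec a _ ih =>
    intro V hV u
    simp only [ev, box', decide_eq_true_eq]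
    exact fun v _ => ih V hV v
  | us s a _ ih =>
    intro V hV u
    rw [ev_subst]
    exact ih _ (fun n => up_ev hV _) u

theorem result : ∃ a : F, a.DiaFree ∧ L2 a ∧ ¬ L1 a := by
  refine ⟨star, by simp [star, F.DiaFree, F.neg], star_L2, fun h => ?_⟩
  have := sound h (fun n u => if n = 0 then 4 ≤ u.1 else if n = 1 then 5 ≤ u.1 else
    if n = 2 then u = 5 else u = 6) (fun n => by
      unfold up; split_ifs <;> decide) 0
  revert this
  decide

end Pool.Agent.Results.MP_1f55c7_lc.Q1
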