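import Pool.Agent.Lead.CK1

namespace Pool.Agent.Results.MP_1f55c7_lc.Q2L1

open Pool.Agent.Lead.CK Pool.Agent.Lead.CK.F

def W : F := imp (box (or (var 0) (var 1)))
  (imp (imp (box (var 0).neg).neg (box (var 1))) (box (var 1)))

def tau : F → F
  | .var n => .var n
  | .bot => .bot
  | .and a b => .and (tau a) (tau b)
  | .or a b => .or (tau a) (tau b)
  | .imp a b => .imp (tau a) (tau b)
  | .box a => .box (tau a)
  | .dia a => (F.box (tau a).neg).neg

lemma tau_free {a : F} (h : a.DiaFree) : tau a = a := by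
  induction a <;> simp_all [tau, F.DiaFree]

lemma tau_subst (s) (a : F) : tau (a.subst s) = (tau a).subst fun n => tau (s n) := by
  induction a <;> simp_all [tau, F.subst, F.neg]

lemma thm_mono {A B : Set F} (h : ∀ a ∈ A, Thm B a) {a} (ha : Thm A a) : Thm B a := by
  induction ha with
  | ax a ha => exact h a ha
  | mp a b _ _ ih1 ih2 => exact .mp _ _ ih1 ih2
  | nec a _ ih => exact .nec _ ih
  | us s a _ ih => exact .us _ _ ih
  | _ => constructor

lemma tau_thm {a} (ha : L1 a) : Thm {W} (tau a) := by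
  induction ha with
  | ax a ha =>
    rcases ha with rfl | rfl | rfl
    · exact tr (tr (rm (sw (bc _ _ _))) (.kbox _ _)) (sw (bc _ _ _))
    · exact .mp _ _ (sw (rf _)) (.nec _ (rf _))
    · exact .ax _ rfl
  | mp a b _ _ ih1 ih2 => exact .mp _ _ ih1 ih2
  | nec a _ ih => exact .nec _ ih
  | us s a _ ih => rw [tau_subst]; exact .us _ _ ih
  | k a b => exact .k _ _
  | s a b c => exact .s _ _ _
  | andI a b => exact .andI _ _
  | andL a b => exact .andL _ _
  | andR a b => exact .andR _ _
  | orL a b => exact .orL _ _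
  | orR a b => exact .orR _ _
  | orE a b c => exact .orE _ _ _
  | efq a => exact .efq _
  | kbox a b => exact .kbox _ _

theorem result : ∃ χ : F, χ.DiaFree ∧ ∀ a : F, a.DiaFree → (L1 a ↔ Thm {χ} a) := by
  refine ⟨W, by simp [W, F.DiaFree, F.neg], fun a ha => ⟨fun h => tau_free ha ▸ tau_thm h,
    thm_mono ?_⟩⟩
  rintro _ rfl
  exact tr (.ax wCD (by simp)) (pre (pre (dia_le (by simp) (by simp) _)))

end Pool.Agent.Results.MP_1f55c7_lc.Q2L1
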